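import Pool.Agent.U128.Reductive

/-!
# The reductive operator problem: almost invariant subspaces of a reductive operator

Let `T` be a reductive operator on a complex Hilbert space `H` (every closed invariant subspace of
`T` reduces `T`) and `Y` a closed subspace. The defect of an operator `R` on `Y` is the dimension of
`(R Y + Y) / Y`; it is zero if `Y` is invariant for `R`.

1. If the defects of all polynomials of `T` on `Y` are at most `c`, then there is a subspace `Z` which
   reduces `T` and is almost equal to `Y`: the codimensions of `Y ∩ Z` in `Y` and in `Z` have a sum at most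
   `2 c`. Consequently all operators of the von Neumann algebra generated by `T` (the operators which
   commute with every operator commuting with `T` and with its adjoint), in particular the adjoint
   of `T`, have defects at most `2 c` on `Y`.
2. Let `A(T)` be the norm closed algebra generated by `T`. If the operators of `A(T)` of finite defect on
   `Y` form a nonmeagre subset of `A(T)` (for instance if all operators of `A(T)` have finite defect on
   `Y`), then there is a number `c` as in 1.
3. If in 2 the subspace `Y` has infinite dimension and infinite codimension, then `T` is the direct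
   sum of two operators on orthogonal reducing subspaces of infinite dimension, one of which is
   almost equal to `Y`. So for a reductive operator which is not such a direct sum the operators of
   finite defect on `Y` form a meagre subset of `A(T)`, for every such `Y`.

Proof: the theorem of `Pool/Agent/U128/ClosedAlg.lean` (a random walk on the units of the algebra and
the submodularity of the mean distance to the images of `Y`) gives an invariant subspace near `Y`; it
reduces `T`, so its projection commutes with `T` and its adjoint.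
-/

set_option autoImplicit false

namespace Pool.Agent.Results.MP_49c4d9_an.AlmostReducing

open Pool.Agent.U128 Pool.Agent.U128.Reductive

universe u

/-- **Almost invariant subspaces of a reductive operator.** -/
theorem result (H : Type u) [NormedAddCommGroup H] [InnerProductSpace ℂ H] [CompleteSpace H]
    (T : H →L[ℂ] H) (hT : IsReductive T) (Y : Submodule ℂ H) (hY : IsClosed (Y : Set H)) :
    (∀ c : ℕ, (∀ p : Polynomial ℂ, ClosedAlg.defect (Polynomial.aeval T p) Y ≤ c) →
      ∃ Z : Submodule ℂ H, IsClosed (Z : Set H) ∧ (∀ x ∈ Z, T x ∈ Z) ∧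
        (∀ x ∈ Z, ContinuousLinearMap.adjoint T x ∈ Z) ∧ Comm.dst Y Z ≤ (2 * c : ℕ) ∧
        ∀ R : H →L[ℂ] H, InVN T R → ClosedAlg.defect R Y ≤ (2 * c : ℕ)) ∧
    (¬ IsMeagre {R : (Algebra.adjoin ℂ {T}).topologicalClosure |
        ClosedAlg.defect (R : H →L[ℂ] H) Y < Cardinal.aleph0} →
      (∃ c : ℕ, ∀ p : Polynomial ℂ, ClosedAlg.defect (Polynomial.aeval T p) Y ≤ c) ∧
      (¬ FiniteDimensional ℂ Y → ¬ FiniteDimensional ℂ (H ⧸ Y) →
        ∃ Z : Submodule ℂ H, IsClosed (Z : Set H) ∧ (∀ x ∈ Z, T x ∈ Z) ∧
          (∀ x ∈ Zᗮ, T x ∈ Zᗮ) ∧ ¬ FiniteDimensional ℂ Z ∧ ¬ FiniteDimensional ℂ Zᗮ ∧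
          Comm.dst Y Z < Cardinal.aleph0)) := by
  have key : ¬ IsMeagre {R : (Algebra.adjoin ℂ {T}).topologicalClosure |
        ClosedAlg.defect (R : H →L[ℂ] H) Y < Cardinal.aleph0} →
      ∃ c : ℕ, ∀ p : Polynomial ℂ, ClosedAlg.defect (Polynomial.aeval T p) Y ≤ c := by
    intro h
    obtain ⟨c, hc⟩ := ClosedAlg.uniform (Algebra.adjoin ℂ {T}).topologicalClosure hY h
    refine ⟨c, fun p => hc _ (Subalgebra.le_topologicalClosure _ ?_)⟩
    rw [Algebra.adjoin_singleton_eq_range_aeval]
    exact ⟨p, rfl⟩
  refine ⟨fun c h => main hT hY c h, fun h => ⟨key h, fun h1 h2 => ?_⟩⟩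
  obtain ⟨c, hc⟩ := key h
  obtain ⟨Z, hZ, h3, h4, h5, -⟩ := main hT hY c hc
  obtain ⟨h6, h7⟩ := HalfSpace.half h5 h1 h2
  refine ⟨Z, hZ, h3, ?_, h6, ?_, h5.trans_lt Cardinal.natCast_lt_aleph0⟩
  · intro x hx
    rw [Submodule.mem_orthogonal] at hx ⊢
    intro z hz
    rw [← ContinuousLinearMap.adjoint_inner_left]
    exact hx _ (h4 z hz)
  · intro h8
    apply h7
    have : CompleteSpace Z := hZ.completeSpace_coe
    have e : Zᗮ ≃ₗ[ℂ] (H ⧸ Z) := (Submodule.quotientEquivOfIsCompl Z Zᗮ
      (Submodule.isCompl_orthogonal _)).symm
    exact e.finiteDimensional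

end Pool.Agent.Results.MP_49c4d9_an.AlmostReducing
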