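import Pool.Agent.U667.RL.Decomp

/-!
# Reductive operators on the lines `A + z K`, `A` arbitrary, `K` compact (MP_49c4d9_an)

Let `A` be an arbitrary bounded operator and `K` a compact operator on a complex Hilbert space `H`. Let
`W(A)` be the Weyl spectrum, the set of the numbers which are in the spectrum of all compact
perturbations of `A`. The theorem is about the numbers `z` such that `T = A + z K` has the following
property (R): the finite dimensional subspaces which are hyperinvariant (invariant under all operators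
commuting with `T`) are reducing. Reductive operators have it (and also, for instance, hyponormal
operators).

By part 5 one may assume that `A`, `A*`, `K`, `K*` have no common eigenvector.

1. Then for almost every complex `z`: if `A + z K` has (R), then `σ(A + z K) = W(A)`.
2. Let `E` be the set of the `z` with `σ(A + z K) = W(A)`. Then `cap E ≤ cap W(A) / |κ|` for every nonzero
   point `κ` of the spectrum of `K` (if `K` is normal, there is one with `|κ| = ‖K‖`).
3. Let `K = ⟪v, ·⟫ u ≠ 0` have rank one. Then `A + z K` is reductive for at most one `z`; or `E` is bounded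
   and `cap E ≤ (cap W(A)) ^ (k + 1) / |⟪v, A ^ k u⟫|` for the least `k` such that this denominator is not
   zero.
4. So if `W(A)` is countable, and if `K` is not quasinilpotent or has rank one, then `A + z K` is
   not reductive for almost every complex `z`.
5. In general, let `H₁` be the closed span of the common eigenvectors of `A`, `A*`, `K`, `K*`. It reduces
   `A` and `K`; on `H₁` they are commuting normal operators, and the restrictions `A₂`, `K₂` to its
   orthogonal complement have no common eigenvectors. If `A + z K` is reductive, so is `A₂ + z K₂`; so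
   for almost every `z` such that `A + z K` is reductive, `σ(A₂ + z K₂) = W(A₂)`.

The capacity of `W(A)` enters as the Chebyshev constant (`ChebyshevLE`), with which it coincides for
compact sets (Fekete, Szegő); `CapLE E κ` says that the (inner) capacity of `E` is at most `κ`.

Proof of 1. Suppose that (R) holds and that the spectrum of `T(z) = A + z K` is not contained in `W(A)`
for all `z` in a set `S` which is not a null set. Let `z₀` be a point of density of `S` in the sense that
all its neighbourhoods meet `S` in non-null sets. Outside of `W(A)` the spectrum of `T(z₀)` is discrete (its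
points are eigenvalues with orthogonal reducing eigenspaces), so there is a small circle; the Riesz
projection `P(z)` of `T(z)` for this circle is holomorphic near `z₀`, and (R) implies that it is
the orthogonal projection onto a finite dimensional reducing subspace on which `T(z)` is normal, for `z ∈ S`.
The functions `⟪x, P(z) x⟫` are holomorphic near `z₀` and real on a non-null set, so they are real
everywhere and constant: `P(z) = P`. So the range of `P` reduces `A` and `K`, and the self-commutator of
`A + z K` on it, a polynomial in `z` and `conj z`, vanishes on a non-null set, so `A`, `A*`, `K` and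
`K*` commute there and have a common eigenvector.
-/

set_option autoImplicit false

open MeasureTheory ContinuousLinearMap

namespace Pool.Agent.Results.MP_49c4d9_an.ArbitraryLines

section Defs

variable {H : Type} [NormedAddCommGroup H] [InnerProductSpace ℂ H]

/-- Every closed invariant subspace of `T` is invariant under the adjoint of `T`. -/
def Reductive [CompleteSpace H] (T : H →L[ℂ] H) : Prop :=
  ∀ V : Submodule ℂ H, IsClosed (V : Set H) → (∀ x ∈ V, T x ∈ V) → ∀ x ∈ V, adjoint T x ∈ V

/-- Property (R): every finite dimensional subspace that is invariant under all operators commuting with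
`T` is invariant under the adjoint of `T`. -/
def FdHyperReductive [CompleteSpace H] (T : H →L[ℂ] H) : Prop :=
  ∀ V : Submodule ℂ H, FiniteDimensional ℂ V →
    (∀ B : H →L[ℂ] H, B * T = T * B → ∀ x ∈ V, B x ∈ V) → ∀ x ∈ V, adjoint T x ∈ V

/-- The Weyl spectrum: the intersection of the spectra of the compact perturbations. -/
def WeylSpectrum (A : H →L[ℂ] H) : Set ℂ :=
  {l | ∀ F : H →L[ℂ] H, IsCompactOperator F → l ∈ spectrum ℂ (A + F)}

/-- `x` is zero or a common eigenvector of `A`, `A*`, `K` and `K*`. -/
def CommonEigenvector [CompleteSpace H] (A K : H →L[ℂ] H) (x : H) : Prop :=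
  ∃ α κ : ℂ, A x = α • x ∧ adjoint A x = (starRingEnd ℂ) α • x ∧
    K x = κ • x ∧ adjoint K x = (starRingEnd ℂ) κ • x

/-- The set of the `z` such that the spectrum of `A + z K` is the Weyl spectrum of `A`. -/
def Exceptional (A K : H →L[ℂ] H) : Set ℂ := {z | spectrum ℂ (A + z • K) = WeylSpectrum A}

/-- The operator `x ↦ ⟪v, x⟫ u`. -/
noncomputable def rankOne (u v : H) : H →L[ℂ] H := (innerSL ℂ v).smulRight u

/-- The closed linear span of the common eigenvectors. -/
def CommonPart [CompleteSpace H] (A K : H →L[ℂ] H) : Submodule ℂ H :=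
  (Submodule.span ℂ {x | CommonEigenvector A K x}).topologicalClosure

/-- `V` reduces `A` and `K`, and the restrictions of `A` and `K` to `V` are commuting normal
operators. -/
def NormalPart [CompleteSpace H] (A K : H →L[ℂ] H) (V : Submodule ℂ H) : Prop :=
  ∀ x ∈ V, A x ∈ V ∧ adjoint A x ∈ V ∧ K x ∈ V ∧ adjoint K x ∈ V ∧
    adjoint A (A x) = A (adjoint A x) ∧ adjoint K (K x) = K (adjoint K x) ∧
    A (K x) = K (A x) ∧ A (adjoint K x) = adjoint K (A x)

/-- `A₂` and `K₂` are the restrictions of `A` and `K` to `V`. -/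
def Restrictions (A K : H →L[ℂ] H) (V : Submodule ℂ H) (A₂ K₂ : V →L[ℂ] V) : Prop :=
  (∀ x, (A₂ x : H) = A x) ∧ ∀ x, (K₂ x : H) = K x

end Defs

/-- The Chebyshev constant (the logarithmic capacity) of the compact set `S` is at most `ρ`. -/
def ChebyshevLE (S : Set ℂ) (ρ : ℝ) : Prop :=
  ∀ ε : ℝ, 0 < ε → ∃ p : Polynomial ℂ, p.Monic ∧ 0 < p.natDegree ∧
    ∀ x ∈ S, ‖p.eval x‖ ≤ (ρ + ε) ^ p.natDegree

/-- The (inner) logarithmic capacity of `E` is at most `κ`: `exp b ≤ κ` whenever a probability measure
without atoms, carried by a bounded subset of `E`, has a logarithmic potential that exists and is at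
least `b` at all points of the plane. -/
def CapLE (E : Set ℂ) (κ : ℝ) : Prop :=
  ∀ μ : Measure ℂ, IsProbabilityMeasure μ → (∀ z, μ {z} = 0) → (∃ R : ℝ, ∀ᵐ z ∂μ, ‖z‖ ≤ R) →
    (∀ᵐ z ∂μ, z ∈ E) → ∀ b : ℝ,
    (∀ ζ : ℂ, Integrable (fun z => Real.log ‖ζ - z‖) μ ∧ b ≤ ∫ z, Real.log ‖ζ - z‖ ∂μ) →
    Real.exp b ≤ κ

variable {H : Type} [NormedAddCommGroup H] [InnerProductSpace ℂ H] [CompleteSpace H]

/-- `A`, `A*`, `K` and `K*` have no common eigenvector. -/
def NoCommonEigenvector (A K : H →L[ℂ] H) : Prop := ∀ x, CommonEigenvector A K x → x = 0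

/-- Part 3, the second alternative. -/
def RankOneBound (A : H →L[ℂ] H) (u v : H) : Prop :=
  Bornology.IsBounded (Exceptional A (rankOne u v)) ∧
    ∃ k : ℕ, inner ℂ v ((A ^ k) u) ≠ 0 ∧ (∀ i < k, inner ℂ v ((A ^ i) u) = 0) ∧
      ∀ ρ : ℝ, 0 ≤ ρ → ChebyshevLE (WeylSpectrum A) ρ →
        CapLE (Exceptional A (rankOne u v)) (ρ ^ (k + 1) / ‖inner ℂ v ((A ^ k) u)‖)

/-- Part 5: the restrictions `A₂`, `K₂` to the orthogonal complement of the span of the common
eigenvectors. -/
def Decomposition (A K : H →L[ℂ] H) : Prop :=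
  NormalPart A K (CommonPart A K) ∧
    ∃ A₂ K₂ : (CommonPart A K)ᗮ →L[ℂ] (CommonPart A K)ᗮ,
      Restrictions A K (CommonPart A K)ᗮ A₂ K₂ ∧ IsCompactOperator K₂ ∧
      NoCommonEigenvector A₂ K₂ ∧
      (∀ z : ℂ, Reductive (A + z • K) → Reductive (A₂ + z • K₂)) ∧
      volume {z : ℂ | Reductive (A + z • K) ∧ z ∉ Exceptional A₂ K₂} = 0

theorem reductive_fd {T : H →L[ℂ] H} (h : Reductive T) : FdHyperReductive T :=
  Pool.Agent.U667.RL.Red.hr h

/-- Part 5. -/
theorem decomposition (A K : H →L[ℂ] H) (hK : IsCompactOperator K) : Decomposition A K := by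
  have hinvA := Pool.Agent.U667.RL.H1_inv A K A (fun x hx => by
    obtain ⟨α, κ, h1, -, -, -⟩ := hx; exact ⟨α, h1⟩)
  have hinvA' := Pool.Agent.U667.RL.H1_inv A K (adjoint A) (fun x hx => by
    obtain ⟨α, κ, -, h1, -, -⟩ := hx; exact ⟨_, h1⟩)
  have hinvK := Pool.Agent.U667.RL.H1_inv A K K (fun x hx => by
    obtain ⟨α, κ, -, -, h1, -⟩ := hx; exact ⟨κ, h1⟩)
  have hinvK' := Pool.Agent.U667.RL.H1_inv A K (adjoint K) (fun x hx => by
    obtain ⟨α, κ, -, -, -, h1⟩ := hx; exact ⟨_, h1⟩)
  constructor
  · intro x hx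
    refine ⟨hinvA x hx, hinvA' x hx, hinvK x hx, hinvK' x hx, ?_, ?_, ?_, ?_⟩
    · exact Pool.Agent.U667.RL.H1_eq A K (adjoint A * A) (A * adjoint A) (fun y hy => by
        obtain ⟨α, κ, h1, h2, h3, h4⟩ := hy
        change adjoint A (A y) = A (adjoint A y)
        rw [h1, h2, map_smul, map_smul, h1, h2, smul_comm]) x hx
    · exact Pool.Agent.U667.RL.H1_eq A K (adjoint K * K) (K * adjoint K) (fun y hy => by
        obtain ⟨α, κ, h1, h2, h3, h4⟩ := hy
        change adjoint K (K y) = K (adjoint K y)
        rw [h3, h4, map_smul, map_smul, h3, h4, smul_comm]) x hx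
    · exact Pool.Agent.U667.RL.H1_eq A K (A * K) (K * A) (fun y hy => by
        obtain ⟨α, κ, h1, h2, h3, h4⟩ := hy
        change A (K y) = K (A y)
        rw [h1, h3, map_smul, map_smul, h1, h3, smul_comm]) x hx
    · exact Pool.Agent.U667.RL.H1_eq A K (A * adjoint K) (adjoint K * A) (fun y hy => by
        obtain ⟨α, κ, h1, h2, h3, h4⟩ := hy
        change A (adjoint K y) = adjoint K (A y)
        rw [h1, h4, map_smul, map_smul, h1, h4, smul_comm]) x hx
  · have hA := Pool.Agent.U667.RL.orth_inv (B := A) hinvA'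
    have hA' := Pool.Agent.U667.RL.orth_inv (B := adjoint A) (V := CommonPart A K) (by
      rw [adjoint_adjoint]; exact hinvA)
    have hKi := Pool.Agent.U667.RL.orth_inv (B := K) hinvK'
    have hKi' := Pool.Agent.U667.RL.orth_inv (B := adjoint K) (V := CommonPart A K) (by
      rw [adjoint_adjoint]; exact hinvK)
    set V := (CommonPart A K)ᗮ with hV
    have hVc : IsClosed (V : Set H) := Submodule.isClosed_orthogonal _
    set A₂ := Pool.Agent.U667.RL.rs V A hA with hA₂
    set K₂ := Pool.Agent.U667.RL.rs V K hKi with hK₂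
    have hK₂c : IsCompactOperator K₂ := Pool.Agent.U667.RL.rs_compact V hVc K hKi hK
    have hno : ∀ x, CommonEigenvector A₂ K₂ x → x = 0 := by
      rintro x ⟨α, κ, h1, h2, h3, h4⟩
      have e1 : A x = α • (x : H) := congrArg Subtype.val h1
      have e2 : adjoint A x = (starRingEnd ℂ) α • (x : H) := by
        rw [← Pool.Agent.U667.RL.rs_adj V A hA hA' x]
        exact congrArg Subtype.val h2
      have e3 : K x = κ • (x : H) := congrArg Subtype.val h3
      have e4 : adjoint K x = (starRingEnd ℂ) κ • (x : H) := by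
        rw [← Pool.Agent.U667.RL.rs_adj V K hKi hKi' x]
        exact congrArg Subtype.val h4
      have h5 : (x : H) ∈ CommonPart A K := Pool.Agent.U667.RL.CE_mem ⟨α, κ, e1, e2, e3, e4⟩
      have h6 := (Submodule.mem_orthogonal _ _).1 x.2 _ h5
      exact Subtype.ext (inner_self_eq_zero.1 h6)
    have hadj : ∀ z : ℂ, ∀ x : V, (adjoint (A₂ + z • K₂) x : H) = adjoint (A + z • K) x := by
      intro z x
      have h1 : adjoint (A₂ + z • K₂) x = adjoint A₂ x + (starRingEnd ℂ) z • adjoint K₂ x := by
        rw [map_add, map_smulₛₗ]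
        rfl
      have h2 : adjoint (A + z • K) (x : H) =
          adjoint A x + (starRingEnd ℂ) z • adjoint K (x : H) := by
        rw [map_add, map_smulₛₗ]
        rfl
      rw [h1, h2, Submodule.coe_add, Submodule.coe_smul,
        Pool.Agent.U667.RL.rs_adj V A hA hA' x, Pool.Agent.U667.RL.rs_adj V K hKi hKi' x]
    have hred : ∀ z : ℂ, Reductive (A + z • K) → Reductive (A₂ + z • K₂) := by
      intro z hz U hU hUinv x hx
      have h1 := hz (U.map V.subtype) ?_ ?_ (x : H) ⟨x, hx, rfl⟩
      · rw [← hadj z x] at h1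
        obtain ⟨y, hy, hyx⟩ := h1
        have : y = adjoint (A₂ + z • K₂) x := Subtype.ext hyx
        rwa [this] at hy
      · have h2 : ((U.map V.subtype : Submodule ℂ H) : Set H) = Subtype.val '' (U : Set V) := rfl
        rw [h2]
        exact hVc.isClosedEmbedding_subtypeVal.isClosedMap _ hU
      · rintro _ ⟨y, hy, rfl⟩
        exact ⟨(A₂ + z • K₂) y, hUinv y hy, rfl⟩
    refine ⟨A₂, K₂, ⟨fun _ => rfl, fun _ => rfl⟩, hK₂c, hno, hred, ?_⟩
    have h1 := Pool.Agent.U667.RL.part1 A₂ K₂ hK₂c hno
    refine measure_mono_null ?_ h1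
    intro z hz
    exact ⟨Pool.Agent.U667.RL.Red.hr (hred z hz.1), hz.2⟩

/-- Reductive operators on the line `A + z K`, for an arbitrary operator `A` and a compact operator
`K`. -/
theorem result (A K : H →L[ℂ] H) (hK : IsCompactOperator K) :
    -- 1. almost all `z`
    (NoCommonEigenvector A K →
      volume {z : ℂ | FdHyperReductive (A + z • K) ∧ z ∉ Exceptional A K} = 0) ∧
    -- 2. the capacity of the exceptional set
    (∀ ρ : ℝ, 0 ≤ ρ → ChebyshevLE (WeylSpectrum A) ρ → ∀ κ ∈ spectrum ℂ K, κ ≠ 0 →
      CapLE (Exceptional A K) (ρ / ‖κ‖)) ∧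
    -- 3. rank one
    (∀ u v : H, u ≠ 0 → v ≠ 0 → K = rankOne u v →
      {z : ℂ | Reductive (A + z • K)}.Subsingleton ∨ RankOneBound A u v) ∧
    -- 4. countable Weyl spectrum
    (NoCommonEigenvector A K → (WeylSpectrum A).Countable →
      ((∃ κ ∈ spectrum ℂ K, κ ≠ 0) ∨ ∃ u v : H, u ≠ 0 ∧ v ≠ 0 ∧ K = rankOne u v) →
      volume {z : ℂ | Reductive (A + z • K)} = 0) ∧
    -- 5. the general case
    Decomposition A K := by
  refine ⟨?_, ?_, ?_, ?_, decomposition A K hK⟩
  · intro hno
    exact Pool.Agent.U667.RL.part1 A K hK hno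
  · intro ρ hρ0 hρ κ hκ hκ0
    exact Pool.Agent.U667.RL.part2 A K hK hρ0 hρ hκ hκ0
  · rintro u v hu hv rfl
    exact Pool.Agent.U667.RL.part3 A hu hv
  · intro hno hc h
    exact Pool.Agent.U667.RL.part4 A K hK hno hc h

end Pool.Agent.Results.MP_49c4d9_an.ArbitraryLines
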