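import Pool.Agent.U590.RB.Gen

/-!
# MP_49c4d9_an: a Baire category dichotomy for reductive operators and reductive algebras

Let `W(𝒮)` be the weakly closed unital algebra generated by a set `𝒮` of bounded operators on a complex
Hilbert space (of arbitrary dimension), and suppose that every closed subspace invariant under `𝒮` is invariant
under the adjoints of `𝒮` (the family is *reductive*).

(1) If for every `S ∈ 𝒮` the set of the vectors `x` such that `S* x` lies in the (not closed) cyclic manifold
`W(𝒮) x` is not meagre, then `W(𝒮)` is self-adjoint.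

(2) In particular, if `T` is a reductive operator and `{x : T* x ∈ W(T) x}` is not meagre, then `T` is normal
and `T* ∈ W(T)`.

(3) Hence for a reductive operator `T` which is not normal, `T* x ∉ W(T) x` for all `x` outside a meagre
set, and the cyclic manifold `W(T) x` is closed only for a meagre set of vectors `x`.

Since `S* x` is always in the closure of `W(𝒮) x`, (2) says that for a counterexample to Q1 the
closure cannot be replaced by the manifold itself at the generic vector.

The proof shows, by induction on `n`, that every closed subspace of `H ⊕ ⋯ ⊕ H` (`n` summands) which is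
invariant under the ampliations of `𝒮` is invariant under the ampliations of the adjoints; then the adjoints
are in `W(𝒮)`. The inductive step is not formal: it uses the weak limits of resolvents along line families of
subspaces. From `Pool.Agent.U590.LM` come the weak integrals, the weak limits along ultrafilters, and the
analysis of two dimensional families (used there for S05531: all *non-closed* invariant manifolds are
reducing); here the hypothesis on all vectors is replaced by one on a non-meagre set, for one set of generators.
-/

set_option autoImplicit false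

open scoped InnerProductSpace Topology

namespace Pool.Agent.Results.MP_49c4d9_an.BaireDichotomy

section Defs

variable {H : Type} [NormedAddCommGroup H] [InnerProductSpace ℂ H]

/-- The algebra `A` of bounded operators is closed in the weak operator topology. -/
def WOTClosed (A : Subalgebra ℂ (H →L[ℂ] H)) : Prop :=
  ∀ T : H →L[ℂ] H,
    (∀ (n : ℕ) (x y : Fin n → H) (ε : ℝ), 0 < ε →
      ∃ S ∈ A, ∀ i : Fin n, ‖⟪(T - S) (x i), y i⟫_ℂ‖ < ε) → T ∈ A

/-- `W(𝒮)`: the intersection of all unital algebras which contain `𝒮` and are closed in the weak operator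
topology. -/
def W (𝒮 : Set (H →L[ℂ] H)) : Subalgebra ℂ (H →L[ℂ] H) :=
  sInf {A | WOTClosed A ∧ 𝒮 ⊆ A}

/-- The cyclic manifold `W(𝒮) x = {B x : B ∈ W(𝒮)}` of the vector `x`; no closure is taken. -/
def cyc (𝒮 : Set (H →L[ℂ] H)) (x : H) : Set H :=
  {y | ∃ B ∈ W 𝒮, B x = y}

/-- Every closed subspace which is invariant under `𝒮` is invariant under the adjoints of `𝒮`. For
`𝒮 = {T}` this says that the operator `T` is reductive. -/
def Reductive [CompleteSpace H] (𝒮 : Set (H →L[ℂ] H)) : Prop :=
  ∀ M : Submodule ℂ H, IsClosed (M : Set H) → (∀ S ∈ 𝒮, ∀ x ∈ M, S x ∈ M) →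
    ∀ S ∈ 𝒮, ∀ x ∈ M, ContinuousLinearMap.adjoint S x ∈ M

end Defs

/-- **Baire category dichotomy for reductive algebras and reductive operators.** -/
theorem result :
    ∀ (H : Type) [NormedAddCommGroup H] [InnerProductSpace ℂ H] [CompleteSpace H],
      (∀ 𝒮 : Set (H →L[ℂ] H), Reductive 𝒮 →
        (∀ S ∈ 𝒮, ¬ IsMeagre {x : H | ContinuousLinearMap.adjoint S x ∈ cyc 𝒮 x}) →
          ∀ B ∈ W 𝒮, ContinuousLinearMap.adjoint B ∈ W 𝒮) ∧
      (∀ T : H →L[ℂ] H, Reductive {T} →
        ¬ IsMeagre {x : H | ContinuousLinearMap.adjoint T x ∈ cyc {T} x} →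
          ContinuousLinearMap.adjoint T * T = T * ContinuousLinearMap.adjoint T ∧
            ContinuousLinearMap.adjoint T ∈ W {T}) ∧
      (∀ T : H →L[ℂ] H, Reductive {T} →
        ContinuousLinearMap.adjoint T * T ≠ T * ContinuousLinearMap.adjoint T →
          IsMeagre {x : H | ContinuousLinearMap.adjoint T x ∈ cyc {T} x} ∧
            IsMeagre {x : H | IsClosed (cyc {T} x)}) := by
  intro H _ _ _
  have key : ∀ T : H →L[ℂ] H, Reductive {T} →
      ¬ IsMeagre {x : H | ContinuousLinearMap.adjoint T x ∈ cyc {T} x} →
        ContinuousLinearMap.adjoint T * T = T * ContinuousLinearMap.adjoint T ∧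
          ContinuousLinearMap.adjoint T ∈ W {T} := by
    intro T hT hcat
    obtain ⟨h1, h2⟩ := Pool.Agent.U590.RB.reductive_operator (T := T) hT hcat
    exact ⟨h2.star_comm_self, h1⟩
  refine ⟨fun 𝒮 h hcat => Pool.Agent.U590.RB.weakAlg_selfadjoint h hcat, key, ?_⟩
  intro T hT hnn
  have h1 : IsMeagre {x : H | ContinuousLinearMap.adjoint T x ∈ cyc {T} x} := by
    by_contra hcat
    exact hnn (key T hT hcat).1
  refine ⟨h1, h1.mono ?_⟩
  intro x hx
  exact Pool.Agent.U590.RB.mem_of_closed_cyclic (T := T) hT hx

end Pool.Agent.Results.MP_49c4d9_an.BaireDichotomy
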