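import Pool.Agent.U524.RS.Gen

/-!
# Generic selfadjoint perturbations are not reductive (MP_49c4d9_an)

Let `H` be an infinite dimensional complex Hilbert space, `T` an arbitrary bounded operator on `H`,
and `E` a real Banach space of bounded operators, continuously embedded by `ι`, which contains the
selfadjoint operators `h ↦ ⟨y, h⟩ x + ⟨x, h⟩ y` of rank at most two, with norm at most
`C ‖x‖ ‖y‖`: for instance all selfadjoint operators, the compact selfadjoint operators, or the
selfadjoint operators in a Schatten class.

**Theorem.** Either every operator `T + A`, `A ∈ E`, is a selfadjoint operator plus a scalar (so that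
it is normal), or
1. for all `A` in an open dense subset of `E` the operator `T + A` has a simple eigenvalue whose
   one-dimensional hyperinvariant eigenspace is not reducing; in particular `T + A` is not reductive;
2. for all `A` in a comeager subset of `E` there are infinitely many such eigenvalues, and the lattice
   of closed hyperinvariant subspaces of `T + A` contains an order copy of the power set of `ℕ` in
   which only the least and the greatest member may be reducing; it contains subspaces of infinite
   dimension and infinite codimension.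

Hence for every bounded selfadjoint operator `B` the operator `A + i B` is normal if it is reductive,
for all `A` in an open dense set of selfadjoint operators; if `B` is not a scalar then it is never
reductive for these `A`.

Proof. A simple eigenvalue `z` with eigenvector `x` (the bordered operator
`(h, ζ) ↦ ((T - z) h - ζ x, y h)` is invertible, where `y x = 1`) persists under small changes of `T`,
by the implicit function theorem, and so does the property that `x` is not an eigenvector of `T*`. Let
`z_1, …, z_k` be simple eigenvalues of `T`, with eigenfunctionals `l_i`, and let `w` be the rightmost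
point of the spectrum of the restriction of `T` to the common kernel of the `l_i`. Then `w ≠ z_i`, the
points `w + s`, `s > 0`, which are different from the `z_i` are in the resolvent set of `T`, and there
are approximate eigenvectors `a` for `w`, `‖a‖ = 1`. Let `w' = ⟨a, T a⟩` and `r = T a - w' a`. The
small selfadjoint operator `A = s a ⊗ a - r ⊗ a - a ⊗ r` of rank two satisfies `(T + A) a = (w' + s) a`,
and `w' + s` is a simple eigenvalue of `T + A` if `⟨a, (w' + s - T)⁻¹ a⟩ ≠ 0`. This is an analytic
function of `s` which, for generic `a`, is not identically zero. If the imaginary part of `T` is not a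
scalar then `a` can be chosen such that it is not an eigenvector of the imaginary part, which is the same
for `T` and `T + A`. For the last statement choose an infinite sequence of these
eigenvectors such that all pairs are orthogonal or all consecutive pairs are not orthogonal.
-/

set_option autoImplicit false

open Filter Topology

universe u w

namespace Pool.Agent.Results.MP_49c4d9_an.GenericSelfAdjointPerturbations

variable {H : Type u} [NormedAddCommGroup H] [InnerProductSpace ℂ H]

/-- `V` is invariant under every bounded operator that commutes with `A` (among them `A`). -/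
def Hyperinvariant (A : H →L[ℂ] H) (V : Submodule ℂ H) : Prop :=
  ∀ S : H →L[ℂ] H, S * A = A * S → ∀ x ∈ V, S x ∈ V

variable [CompleteSpace H]

/-- `V` is invariant for `A` and for its adjoint. -/
def Reducing (A : H →L[ℂ] H) (V : Submodule ℂ H) : Prop :=
  (∀ x ∈ V, A x ∈ V) ∧ ∀ x ∈ V, ContinuousLinearMap.adjoint A x ∈ V

/-- `z` is a simple eigenvalue of `A` whose eigenspace is not reducing: the eigenspace `V` is
one-dimensional and hyperinvariant, has a closed hyperinvariant complement `W`, and is not
reducing. -/
def NonreducingEigenvalue (A : H →L[ℂ] H) (z : ℂ) : Prop :=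
  ∃ V W : Submodule ℂ H, IsClosed (V : Set H) ∧ IsClosed (W : Set H) ∧ IsCompl V W ∧
    Module.finrank ℂ V = 1 ∧ (∀ y, y ∈ V ↔ A y = z • y) ∧ Hyperinvariant A V ∧
    Hyperinvariant A W ∧ ¬ Reducing A V

/-- There are closed hyperinvariant subspaces `V s` of `A`, one for every set `s` of natural numbers,
with `V s ⊆ V t` if and only if `s ⊆ t`; the dimension of `V s` is infinite if `s` is infinite, its
codimension is infinite if the complement of `s` is infinite, and `V s` is not reducing if `s` is
neither empty nor the whole set. -/
def ManyNonreducing (A : H →L[ℂ] H) : Prop :=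
  ∃ V : Set ℕ → Submodule ℂ H,
    (∀ s, IsClosed (V s : Set H) ∧ Hyperinvariant A (V s)) ∧
    (∀ s t, V s ≤ V t ↔ s ⊆ t) ∧
    (∀ s, s.Infinite → ¬ FiniteDimensional ℂ (V s)) ∧
    (∀ s, sᶜ.Infinite → ¬ FiniteDimensional ℂ (H ⧸ V s)) ∧
    ∀ s, s.Nonempty → s ≠ Set.univ → ¬ Reducing A (V s)

open Pool.Agent.U524.RS in
theorem nonreducing_of_good {A : H →L[ℂ] H} {z : ℂ} {x : H} {y : H →L[ℂ] ℂ}
    (h : GoodNR A z x y) : NonreducingEigenvalue A z := by
  obtain ⟨l, hl⟩ := h.1.simp
  have hx : x ≠ 0 := by
    intro h0
    have := hl.nor
    rw [h0, map_zero] at this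
    exact zero_ne_one this
  refine ⟨Submodule.span ℂ {x}, LinearMap.ker l.toLinearMap, Submodule.closed_of_finiteDimensional _,
    l.isClosed_ker, ?_, finrank_span_singleton hx, ?_, ?_, ?_, ?_⟩
  · constructor
    · rw [Submodule.disjoint_def]
      intro y hy hyf
      obtain ⟨c, rfl⟩ := Submodule.mem_span_singleton.1 hy
      have h1 : l (c • x) = 0 := hyf
      rw [map_smul, hl.nor, smul_eq_mul, mul_one] at h1
      rw [h1, zero_smul]
    · rw [codisjoint_iff, eq_top_iff]
      intro y _
      rw [Submodule.mem_sup]
      refine ⟨l y • x, Submodule.smul_mem _ _ (Submodule.mem_span_singleton_self x),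
        y - l y • x, ?_, by abel⟩
      show l (y - l y • x) = 0
      rw [map_sub, map_smul, hl.nor, smul_eq_mul, mul_one, sub_self]
  · intro y
    constructor
    · intro hy
      obtain ⟨c, rfl⟩ := Submodule.mem_span_singleton.1 hy
      rw [map_smul, hl.eig, smul_comm]
    · intro hy
      rw [hl.uniq y hy]
      exact Submodule.smul_mem _ _ (Submodule.mem_span_singleton_self x)
  · intro S hSc y hy
    obtain ⟨c, rfl⟩ := Submodule.mem_span_singleton.1 hy
    rw [map_smul, (hl.comm S hSc).1]
    exact Submodule.smul_mem _ _ (Submodule.smul_mem _ _ (Submodule.mem_span_singleton_self x))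
  · intro S hSc y hy
    have hy' : l y = 0 := hy
    show l (S y) = 0
    rw [(hl.comm S hSc).2 y, hy', mul_zero]
  · rintro ⟨_, h2⟩
    obtain ⟨c, hc⟩ := Submodule.mem_span_singleton.1 (h2 x (Submodule.mem_span_singleton_self x))
    apply h.2
    have h3 : inner ℂ x (ContinuousLinearMap.adjoint A x) = (starRingEnd ℂ) z * inner ℂ x x := by
      rw [ContinuousLinearMap.adjoint_inner_right, hl.eig, inner_smul_left]
    rw [← hc, inner_smul_right] at h3
    have h4 := mul_right_cancel₀ (inner_self_ne_zero.2 hx) h3
    rw [← hc, h4]

open Pool.Agent.U524.RS in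
theorem many_of_infinite {A : H →L[ℂ] H} (h : {z : ℂ | ∃ x y, GoodNR A z x y}.Infinite) :
    ManyNonreducing A := by
  set e := h.natEmbedding with he
  choose x y hxy using fun n => (e n).2
  choose l hl using fun n => (hxy n).1.simp
  have hinj : Function.Injective fun n => ((e n : ℂ)) := fun m n hmn =>
    e.injective (Subtype.ext hmn)
  obtain ⟨V, h1, h2, h3, h4, h5⟩ := many A (fun n => (e n : ℂ)) x l hinj hl (fun n => (hxy n).2)
  exact ⟨V, h1, h2, h3, h4, fun s hs hs' hred => h5 s hs hs' hred.2⟩

/-- Let `T` be a bounded operator on an infinite dimensional complex Hilbert space `H` and let the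
real Banach space `E` be continuously mapped into the bounded operators on `H`, such that the
selfadjoint operators `h ↦ ⟨y, h⟩ x + ⟨x, h⟩ y` are images of elements of norm at most
`C ‖x‖ ‖y‖`. Either all operators `T + A`, `A ∈ E`, are selfadjoint up to a scalar, or (1) for all `A`
in an open dense set `T + A` has a simple eigenvalue with a nonreducing eigenspace, and (2) for all
`A` in a comeager set it has infinitely many, and the power set of `ℕ` embeds into its lattice of
closed hyperinvariant subspaces, with nonreducing subspaces. -/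
theorem result (hH : ¬ FiniteDimensional ℂ H) (T : H →L[ℂ] H) {E : Type w} [NormedAddCommGroup E]
    [NormedSpace ℝ E] [CompleteSpace E] (ι : E →L[ℝ] (H →L[ℂ] H))
    (hι : ∃ C : ℝ, ∀ x y : H, ∃ A : E,
      (∀ h, ι A h = inner ℂ y h • x + inner ℂ x h • y) ∧ ‖A‖ ≤ C * ‖x‖ * ‖y‖) :
    (∀ A : E, ∃ (B : H →L[ℂ] H) (c : ℂ), IsSelfAdjoint B ∧ T + ι A = B + c • 1) ∨
      ((∃ U : Set E, IsOpen U ∧ Dense U ∧ ∀ A ∈ U, ∃ z : ℂ, NonreducingEigenvalue (T + ι A) z) ∧
        ∀ᶠ A in residual E, {z : ℂ | NonreducingEigenvalue (T + ι A) z}.Infinite ∧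
          ManyNonreducing (T + ι A)) := by
  have hι' : ∃ C : ℝ, ∀ x y : H, ∃ A : E, ι A = Pool.Agent.U524.RS.sym x y ∧
      ‖A‖ ≤ C * ‖x‖ * ‖y‖ := by
    obtain ⟨C, hC⟩ := hι
    refine ⟨C, fun x y => ?_⟩
    obtain ⟨A, hA, hAn⟩ := hC x y
    exact ⟨A, ContinuousLinearMap.ext hA, hAn⟩
  by_cases hns : ∃ A₀ : E, Pool.Agent.U524.RS.NS (T + ι A₀)
  · right
    obtain ⟨A₀, hA₀⟩ := hns
    refine ⟨⟨{A : E | Pool.Agent.U524.RS.Has 1 (T + ι A)},
      (Pool.Agent.U524.RS.isOpen_has 1).preimage (f := fun A : E => T + ι A)
        (continuous_const.add ι.continuous),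
      Pool.Agent.U524.RS.dense_has T ι hH hι' A₀ hA₀ 1, ?_⟩, ?_⟩
    · rintro A ⟨z, x, y, _, h⟩
      exact ⟨z 0, nonreducing_of_good (h 0)⟩
    · filter_upwards [Pool.Agent.U524.RS.generic T ι hH hι' A₀ hA₀] with A hA
      have hinf := Pool.Agent.U524.RS.infinite_of_has (T + ι A) hA
      refine ⟨hinf.mono ?_, many_of_infinite hinf⟩
      rintro z ⟨x, y, h⟩
      exact nonreducing_of_good h
  · left
    intro A
    have hA : ¬ Pool.Agent.U524.RS.NS (T + ι A) := fun h => hns ⟨A, h⟩
    unfold Pool.Agent.U524.RS.NS at hA
    push Not at hA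
    obtain ⟨c, hc⟩ := hA
    set S : H →L[ℂ] H := T + ι A with hS
    have hnt : Nontrivial H := by
      by_contra hcon
      rw [not_nontrivial_iff_subsingleton] at hcon
      exact hH inferInstance
    obtain ⟨a, ha⟩ := exists_ne (0 : H)
    have hstar : ContinuousLinearMap.adjoint S = S - c • (1 : H →L[ℂ] H) := by
      have : ContinuousLinearMap.adjoint S = S - (S - ContinuousLinearMap.adjoint S) := by abel
      rw [this, hc]; rfl
    have hadj1 : ContinuousLinearMap.adjoint (1 : H →L[ℂ] H) = 1 :=
      ContinuousLinearMap.adjoint_one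
    have hcc : (starRingEnd ℂ) c = -c := by
      have h1 := congrArg ContinuousLinearMap.adjoint hstar
      rw [ContinuousLinearMap.adjoint_adjoint, map_sub, LinearIsometryEquiv.map_smulₛₗ, hadj1,
        hstar] at h1
      have h2 : ((starRingEnd ℂ) c + c) • a = 0 := by
        have h3 := congrArg (fun B : H →L[ℂ] H => B a) h1
        have h4 : S a = S a - c • a - (starRingEnd ℂ) c • a := h3
        have h5 : c • a + (starRingEnd ℂ) c • a = S a - (S a - c • a - (starRingEnd ℂ) c • a) := by
          abel
        rw [add_smul, add_comm, h5, ← h4, sub_self]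
      have h6 := (smul_eq_zero.1 h2).resolve_right ha
      exact eq_neg_of_add_eq_zero_left h6
    refine ⟨S - (c / 2) • (1 : H →L[ℂ] H), c / 2, ?_, by abel⟩
    rw [ContinuousLinearMap.isSelfAdjoint_iff', map_sub, LinearIsometryEquiv.map_smulₛₗ, hadj1,
      hstar, map_div₀, hcc]
    have h7 : (starRingEnd ℂ) (2 : ℂ) = 2 := Complex.conj_ofNat 2
    rw [h7, sub_sub, ← add_smul]
    congr 2
    ring

end Pool.Agent.Results.MP_49c4d9_an.GenericSelfAdjointPerturbations
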